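import Pool.Agent.Helper35.BR.Defs

/-!
# Fibre products of quadric bundles and of spaces of algebra homomorphisms: definitions
-/

set_option autoImplicit false

namespace Pool.Agent.Helper4.SBQ

open MvPolynomial TensorProduct AlgebraicGeometry CategoryTheory
open Pool.Agent.Helper35.BR

/-- the `R`-algebra `A` becomes central simple of dimension `m ^ 2` over the fraction field of `R` -/
def GenCSA (R : Type) [CommRing R] [IsDomain R] (A : Type) [Ring A] [Algebra R A] (m : ℕ) : Prop :=
  Algebra.IsCentral (FractionRing R) (FractionRing R ⊗[R] A) ∧
    IsSimpleRing (FractionRing R ⊗[R] A) ∧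
    Module.finrank (FractionRing R) (FractionRing R ⊗[R] A) = m ^ 2

section HR

variable (R : Type) [CommRing R] {s : ℕ} (A : Fin s → Type) [∀ j, Ring (A j)]
  [∀ j, Algebra R (A j)] (m : Fin s → ℕ)

/-- the ring representing families of homomorphisms of `R`-algebras `A j → M_(m j)` -/
def HR : Type := HomRing R A m

noncomputable instance : CommRing (HR R A m) := Ideal.Quotient.commRing _

noncomputable instance : Algebra R (HR R A m) := Ideal.Quotient.algebra R

end HR

/-- the ideal of the fibre product over `R` of the affine cones of the quadrics `q i`, in the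
polynomial ring over the `R`-algebra `H` -/
noncomputable def quadI {R : Type} [CommRing R] {r : ℕ} {N : Fin r → ℕ}
    (q : ∀ i : Fin r, Matrix (Fin (N i)) (Fin (N i)) R) (H : Type) [CommRing H] [Algebra R H] :
    Ideal (MvPolynomial (Σ i : Fin r, Fin (N i)) H) :=
  Ideal.span (Set.range fun i : Fin r =>
    ∑ j, ∑ k, C (algebraMap R H (q i j k)) * X ⟨i, j⟩ * X ⟨i, k⟩)

section V

variable {R : Type} [CommRing R] {r s : ℕ} {N : Fin r → ℕ}
  (q : ∀ i : Fin r, Matrix (Fin (N i)) (Fin (N i)) R) (A : Fin s → Type) [∀ j, Ring (A j)]
  [∀ j, Algebra R (A j)] (m : Fin s → ℕ) (d : R)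

/-- the coordinate ring of the fibre product over `Spec R` of the affine cones of the quadrics `q i`
and of the schemes of homomorphisms of `R`-algebras `A j → M_(m j)` -/
def VR : Type := MvPolynomial (Σ i : Fin r, Fin (N i)) (HR R A m) ⧸ quadI q (HR R A m)

noncomputable instance : CommRing (VR q A m) := Ideal.Quotient.commRing _

noncomputable instance : Algebra R (VR q A m) := Ideal.Quotient.algebra R

/-- its localization at `d` -/
def VL : Type := Localization.Away (algebraMap R (VR q A m) d)

noncomputable instance : CommRing (VL q A m d) := OreLocalization.instCommRing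

noncomputable instance : Algebra R (VL q A m d) := OreLocalization.instAlgebra

/-- the part of the fibre product over `d ≠ 0` -/
noncomputable def V : Scheme.{0} := Spec (CommRingCat.of (VL q A m d))

/-- the structure morphism over the field `K` -/
noncomputable def toSpec (K : Type) [Field K] [Algebra K R] :
    V q A m d ⟶ Spec (CommRingCat.of K) :=
  Spec.map (CommRingCat.ofHom ((algebraMap R (VL q A m d)).comp (algebraMap K R)))

end V

end Pool.Agent.Helper4.SBQ
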